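import Pool.Agent.K1H2.BI.Stm2

set_option autoImplicit false

namespace Pool.Agent.K1H74.BI

open MeasureTheory ProbabilityTheory Filter
open scoped ENNReal NNReal Topology BigOperators
open Pool.Agent.K1H2.BI

universe u

theorem map_fst_ins {Ω : Type u} [MeasurableSpace Ω] (P : Measure Ω)
    (ν : PMF ℕ) (ins : ℕ → Ω → Inst) (hD : Drawn P ν ins) (j : ℕ) :
    P.map (fun ω => (ins j ω).1) = (kids ν).toMeasure := by
  have h1 : P.map (fun ω => (ins j ω).1) = (P.map (ins j)).map Prod.fst := by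
    rw [Measure.map_map measurable_fst (hD.meas j)]
    rfl
  rw [h1, hD.law j]
  unfold law
  rw [Measure.map_fst_prod]
  simp

theorem t_SB (hKIDS : S_KIDS) : S_SB.{u} := by
  intro Ω _ P _ ν ins hν hD η hη
  obtain ⟨hv0, hsq, hmean, hvar, -⟩ := hKIDS ν hν
  have hf : Measurable (fun i : Inst => (i.1.length : ℝ) - 1) := by
    have : Measurable (fun l : List Dir => (l.length : ℝ) - 1) := measurable_from_top
    exact this.comp measurable_fst
  have hfst : ∀ j, Measurable (fun ω => (ins j ω).1) := fun j => measurable_fst.comp (hD.meas j)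
  have hg : ∀ g : List Dir → ℝ, Measurable g := fun g => measurable_from_top
  set ξ : ℕ → Ω → ℝ := fun j ω => ((ins j ω).1.length : ℝ) - 1 with hξ
  have hindep : iIndepFun ξ P := hD.indep.comp (fun _ i => (i.1.length : ℝ) - 1) (fun _ => hf)
  have hident : ∀ i, IdentDistrib (ξ i) (ξ 0) P P := by
    intro i
    have h1 : IdentDistrib (ins i) (ins 0) P P :=
      ⟨(hD.meas i).aemeasurable, (hD.meas 0).aemeasurable, by rw [hD.law, hD.law]⟩
    exact h1.comp hf
  have hint : ∀ g : List Dir → ℝ, Integrable g (kids ν).toMeasure →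
      Integrable (fun ω => g (ins 0 ω).1) P := by
    intro g hgi
    rw [← map_fst_ins P ν ins hD 0] at hgi
    exact hgi.comp_measurable (hfst 0)
  have hI : ∀ g : List Dir → ℝ, ∫ ω, g (ins 0 ω).1 ∂P = ∫ l, g l ∂(kids ν).toMeasure := by
    intro g
    rw [← map_fst_ins P ν ins hD 0]
    exact (integral_map (hfst 0).aemeasurable (hg g).aestronglyMeasurable).symm
  have : IsProbabilityMeasure (kids ν).toMeasure := PMF.toMeasure.isProbabilityMeasure _
  have hL2 : MemLp (fun l : List Dir => (l.length : ℝ)) 2 (kids ν).toMeasure :=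
    (memLp_two_iff_integrable_sq (hg _).aestronglyMeasurable).2 hsq
  have hL2' : MemLp (fun l : List Dir => (l.length : ℝ) - 1) 2 (kids ν).toMeasure :=
    hL2.sub (memLp_const 1)
  have hL1 : Integrable (fun l : List Dir => (l.length : ℝ)) (kids ν).toMeasure :=
    hL2.integrable (by norm_num)
  have hmem : MemLp (ξ 0) 2 P := by
    have h1 : AEStronglyMeasurable (ξ 0) P :=
      (hf.comp (hD.meas 0)).aestronglyMeasurable
    rw [memLp_two_iff_integrable_sq h1]
    exact hint _ ((memLp_two_iff_integrable_sq (hg _).aestronglyMeasurable).1 hL2')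
  have hE : P[ξ 0] = 0 := by
    have h1 := hI (fun l => (l.length : ℝ) - 1)
    have h2 : ∫ l : List Dir, ((l.length : ℝ) - 1) ∂(kids ν).toMeasure = 0 := by
      rw [integral_sub hL1 (integrable_const 1), hmean]
      simp
    rw [h2] at h1
    exact h1
  have hV : Var[ξ 0; P] = var ν := by
    have h0 : AEMeasurable (ξ 0) P := (hf.comp (hD.meas 0)).aemeasurable
    rw [variance_eq_integral h0, hE]
    have h1 := hI (fun l => ((l.length : ℝ) - 1) ^ 2)
    rw [hvar] at h1
    rw [← h1]
    simp [hξ]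
  set v : ℝ≥0 := (Var[ξ 0; P]).toNNReal with hvdef
  have hv : v ≠ 0 := by
    rw [hvdef, hV]
    exact (Real.toNNReal_pos.2 hv0).ne'
  have hY : HasLaw id (gaussianReal 0 v) (gaussianReal 0 v) := HasLaw.id
  have hCLT := tendstoInDistribution_inv_sqrt_mul_sum_sub hY hmem hindep hident
  have := nullSingletonClass_gaussianReal (μ := 0) hv
  have hsm := tendsto_measure_Icc (μ := gaussianReal 0 v) 0
  have hη' : (0 : ℝ≥0∞) < ENNReal.ofReal η := ENNReal.ofReal_pos.2 hη
  have hev := (hsm.eventually_lt_const hη').filter_mono (nhdsWithin_le_nhds (s := Set.Ioi (0 : ℝ)))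
  obtain ⟨ε, hε1, hε0⟩ := (hev.and self_mem_nhdsWithin).exists
  refine ⟨ε, hε0, ?_⟩
  have hF : IsClosed (Set.Icc (0 - ε) (0 + ε)) := isClosed_Icc
  have hlim := ProbabilityMeasure.limsup_measure_closed_le_of_tendsto hCLT.tendsto hF
  have hlim2 := lt_of_le_of_lt hlim (by
    show ((gaussianReal 0 v).map id) (Set.Icc (0 - ε) (0 + ε)) < ENNReal.ofReal η
    rw [Measure.map_id]; exact hε1)
  have hev2 := eventually_lt_of_limsup_lt hlim2
  filter_upwards [hev2, eventually_ge_atTop 1] with n hn hn1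
  have hn0 : (0 : ℝ) < Real.sqrt n := Real.sqrt_pos.2 (by exact_mod_cast hn1)
  have hn' : (P.map (fun ω => (Real.sqrt n)⁻¹ * (∑ k ∈ Finset.range n, ξ k ω - n * P[ξ 0])))
      (Set.Icc (0 - ε) (0 + ε)) < ENNReal.ofReal η := hn
  have hmeas : Measurable (fun ω => (Real.sqrt n)⁻¹ * (∑ k ∈ Finset.range n, ξ k ω - n * P[ξ 0])) := by
    have h1 : ∀ k, Measurable (ξ k) := fun k => hf.comp (hD.meas k)
    exact ((Finset.measurable_sum _ fun k _ => h1 k).sub measurable_const).const_mul _
  rw [Measure.map_apply hmeas measurableSet_Icc] at hn'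
  have hset : {ω | |∑ j ∈ Finset.range n, (((ins j ω).1.length : ℝ) - 1)| ≤ ε * Real.sqrt n} =
      (fun ω => (Real.sqrt n)⁻¹ * (∑ k ∈ Finset.range n, ξ k ω - n * P[ξ 0])) ⁻¹'
        (Set.Icc (0 - ε) (0 + ε)) := by
    ext ω
    simp only [Set.mem_ofPred_eq, Set.mem_preimage, Set.mem_Icc, hE, mul_zero, sub_zero, zero_sub,
      zero_add]
    rw [abs_le, inv_mul_eq_div, le_div_iff₀ hn0, div_le_iff₀ hn0, neg_mul]
  rw [hset, measureReal_def]
  exact ENNReal.toReal_le_of_le_ofReal hη.le hn'.le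

end Pool.Agent.K1H74.BI
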