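import Pool.Agent.K1H2.BI.Stm

set_option autoImplicit false

namespace Pool.Agent.K1H74.BI

open MeasureTheory ProbabilityTheory Filter
open scoped ENNReal Topology BigOperators
open Pool.Agent.K1H2.BI

universe u

theorem t_TIMEAS (hTime : S_TIME.{u}) (hTraj : S_TRAJ) : S_TIMEAS.{u} := by
  intro ν hν
  obtain ⟨c, C, hc, hC, hmain⟩ := hTime ν hν
  refine ⟨c / 4, by positivity, ?_⟩
  intro Ω _ P _ ins hins
  set E : ℕ → Set Ω := fun k =>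
    {ω | 2 ^ k ≤ (X (at' ins ω) ⌊c * (((2 ^ k : ℕ) : ℝ)) ^ (5 / 3 : ℝ)⌋₊).t} with hE
  have hEle : ∀ k, P.real (E k) ≤ C * ((2:ℝ) ^ (-(1 / 3) : ℝ)) ^ k := by
    intro k
    refine (hmain Ω P ins hins (2 ^ k) Nat.one_le_two_pow).trans (le_of_eq ?_)
    congr 1
    push_cast
    rw [← Real.rpow_natCast, ← Real.rpow_natCast, ← Real.rpow_mul (by norm_num),
      ← Real.rpow_mul (by norm_num), mul_comm]
  have hr0 : (0:ℝ) < (2:ℝ) ^ (-(1 / 3) : ℝ) := by positivity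
  have hr1 : (2:ℝ) ^ (-(1 / 3) : ℝ) < 1 := by
    apply Real.rpow_lt_one_of_one_lt_of_neg <;> norm_num
  have hsum : Summable fun k : ℕ => C * ((2:ℝ) ^ (-(1 / 3) : ℝ)) ^ k :=
    (summable_geometric_of_lt_one hr0.le hr1).mul_left C
  have hfin : ∑' k, P (E k) ≠ ⊤ := by
    have h1 : ∑' k, P (E k) ≤ ∑' k, ENNReal.ofReal (C * ((2:ℝ) ^ (-(1 / 3) : ℝ)) ^ k) := by
      apply ENNReal.tsum_le_tsum
      intro k
      rw [← ENNReal.ofReal_toReal (measure_ne_top P (E k))]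
      exact ENNReal.ofReal_le_ofReal (hEle k)
    exact ne_top_of_le_ne_top hsum.tsum_ofReal_ne_top h1
  filter_upwards [ae_eventually_notMem hfin] with ω hω
  obtain ⟨K₀, hK₀⟩ := eventually_atTop.1 hω
  rw [eventually_atTop]
  refine ⟨2 ^ K₀, fun m hm n hmn => ?_⟩
  have hm0 : m ≠ 0 := by
    have : 0 < 2 ^ K₀ := by positivity
    omega
  set k := Nat.log 2 m with hk
  have hk1 : 2 ^ k ≤ m := Nat.pow_log_le_self 2 hm0
  have hk2 : m < 2 ^ (k + 1) := Nat.lt_pow_succ_log_self (by norm_num) m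
  have hk0 : K₀ ≤ k := by
    by_contra hcon
    push Not at hcon
    have : 2 ^ (k + 1) ≤ 2 ^ K₀ := Nat.pow_le_pow_right (by norm_num) hcon
    omega
  have hnot := hK₀ k hk0
  simp only [hE, Set.mem_setOf_eq, not_le] at hnot
  have hn : ⌊c * (((2 ^ k : ℕ) : ℝ)) ^ (5 / 3 : ℝ)⌋₊ < n := by
    by_contra hcon
    push Not at hcon
    have := ((hTraj (at' ins ω)).2.2.1 n _ hcon).2
    omega
  have h1 : c * (((2 ^ k : ℕ) : ℝ)) ^ (5 / 3 : ℝ) < n :=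
    (Nat.lt_floor_add_one _).trans_le (by exact_mod_cast hn)
  have h2 : ((m : ℝ) / 2) ^ (5 / 3 : ℝ) ≤ (((2 ^ k : ℕ) : ℝ)) ^ (5 / 3 : ℝ) := by
    apply Real.rpow_le_rpow (by positivity) _ (by norm_num)
    have : (m : ℝ) < ((2 ^ (k + 1) : ℕ) : ℝ) := by exact_mod_cast hk2
    push_cast at this ⊢
    rw [pow_succ] at this
    linarith
  have h3 : (2:ℝ) ^ (5 / 3 : ℝ) ≤ 4 := by
    calc (2:ℝ) ^ (5 / 3 : ℝ) ≤ (2:ℝ) ^ (2 : ℝ) := by
          apply Real.rpow_le_rpow_of_exponent_le <;> norm_num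
      _ = 4 := by norm_num
  have h4 : (m : ℝ) ^ (5 / 3 : ℝ) / 4 ≤ ((m : ℝ) / 2) ^ (5 / 3 : ℝ) := by
    rw [Real.div_rpow (by positivity) (by norm_num)]
    exact div_le_div_of_nonneg_left (by positivity) (by positivity) h3
  calc c / 4 * (m : ℝ) ^ (5 / 3 : ℝ) = c * ((m : ℝ) ^ (5 / 3 : ℝ) / 4) := by ring
    _ ≤ c * (((2 ^ k : ℕ) : ℝ)) ^ (5 / 3 : ℝ) := mul_le_mul_of_nonneg_left (h4.trans h2) hc.le
    _ ≤ n := h1.le

end Pool.Agent.K1H74.BI
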