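import Pool.Agent.K1H53.BI.Plan

set_option autoImplicit false

namespace Pool.Agent.K1H74.BI

open Finset Pool.Agent.K1H53.BI
open scoped ENNReal

theorem natAbs_step (a b : ℤ) (hb : b.natAbs ≤ 1) : (a + b).natAbs ^ 2 ≤ a.natAbs ^ 2 + 2 * a.natAbs + 1 := by
  have h1 : (a + b).natAbs ≤ a.natAbs + 1 := (Int.natAbs_add_le a b).trans (by omega)
  calc (a + b).natAbs ^ 2 ≤ (a.natAbs + 1) ^ 2 := Nat.pow_le_pow_left h1 2
    _ = _ := by ring

theorem nsq_step (x : V) (e : Fin 3 × Bool) :
    nsq (x + dir e) ≤ nsq x + 2 * (x e.1).natAbs + 1 := by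
  obtain ⟨j, b⟩ := e
  have hb : (if b then (1:ℤ) else -1).natAbs ≤ 1 := by cases b <;> simp
  have hj : (x j + (if b then (1:ℤ) else -1)).natAbs ^ 2 ≤ (x j).natAbs ^ 2 + 2 * (x j).natAbs + 1 :=
    natAbs_step _ _ hb
  unfold nsq
  rw [← Finset.add_sum_erase univ _ (mem_univ j),
    ← Finset.add_sum_erase univ (fun i => (x i).natAbs ^ 2) (mem_univ j)]
  have h1 : ∑ i ∈ univ.erase j, ((x + dir (j, b)) i).natAbs ^ 2 =
      ∑ i ∈ univ.erase j, (x i).natAbs ^ 2 := by
    apply sum_congr rfl
    intro i hi
    have hij : i ≠ j := (mem_erase.1 hi).1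
    simp [dir, hij]
  rw [h1]
  have h2 : (x + dir (j, b)) j = x j + (if b then (1:ℤ) else -1) := by
    simp [dir]
  rw [h2]
  simp only
  omega

theorem natAbs_le (x : V) (c : ℕ) (h : nsq x ≤ c ^ 2) (j : Fin 3) : (x j).natAbs ≤ c := by
  have h1 : (x j).natAbs ^ 2 ≤ nsq x := by
    unfold nsq
    exact Finset.single_le_sum (f := fun i => (x i).natAbs ^ 2) (fun i _ => Nat.zero_le _) (mem_univ j)
  exact (Nat.pow_le_pow_iff_left two_ne_zero).1 (h1.trans h)

theorem sub_put (s : St) (y : V) : s.A ⊆ (put s y).A := by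
  unfold put
  split_ifs
  · exact Subset.refl _
  · exact subset_insert _ _

theorem good_put {s : St} (hs : Good s) {x : V} (hx : x ∈ s.A) (e : Fin 3 × Bool) :
    Good (put s (x + dir e)) := by
  unfold put
  split_ifs with h
  · exact ⟨hs.zero_mem, fun z hz => by
      rcases List.mem_cons.1 hz with rfl | hz
      · exact h
      · exact hs.act z hz, hs.size⟩
  · refine ⟨mem_insert_of_mem hs.zero_mem, fun z hz => mem_insert_of_mem (hs.act z hz), ?_⟩
    intro z hz
    show nsq z ≤ (insert (x + dir e) s.A).card ^ 2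
    rw [card_insert_of_notMem h]
    have hz' : z ∈ insert (x + dir e) s.A := hz
    rcases mem_insert.1 hz' with rfl | hz''
    · have h1 := nsq_step x e
      have h2 := hs.size x hx
      have h3 := natAbs_le x _ h2 e.1
      nlinarith
    · have := hs.size z hz''
      exact this.trans (Nat.pow_le_pow_left (Nat.le_succ _) 2)

theorem good_children (x : V) (k : ℕ) : ∀ (s : St), Good s → x ∈ s.A →
    ∀ s' : St, (children x k s) s' ≠ 0 → Good s' := by
  induction k with
  | zero =>
    intro s hs _ s' h
    rw [children] at h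
    have : s' = s := by
      by_contra hne
      exact h (by simp [PMF.pure_apply, hne])
    rw [this]; exact hs
  | succ k ih =>
    intro s hs hx s' h
    rw [children] at h
    rw [← PMF.mem_support_iff, PMF.mem_support_bind_iff] at h
    obtain ⟨e, _, he⟩ := h
    exact ih (put s (x + dir e)) (good_put hs hx e) (sub_put s _ hx) s' ((PMF.mem_support_iff _ _).1 he)

theorem good_step (ν : PMF ℕ) {s : St} (hs : Good s) (s' : St) (h : (step ν s) s' ≠ 0) : Good s' := by
  unfold step at h
  split_ifs at h with h1 h2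
  · have : s' = s := by
      by_contra hne
      exact h (by simp [PMF.pure_apply, hne])
    rw [this]; exact hs
  · have : s' = ⟨s.A, [0], s.m - 1⟩ := by
      by_contra hne
      exact h (by simp [PMF.pure_apply, hne])
    rw [this]
    exact ⟨hs.zero_mem, fun z hz => by
      have : z = 0 := by simpa using hz
      rw [this]; exact hs.zero_mem, hs.size⟩
  · rw [← PMF.mem_support_iff, PMF.mem_support_bind_iff] at h
    obtain ⟨i, hi, h⟩ := h
    rw [PMF.mem_support_bind_iff] at h
    obtain ⟨k, _, h⟩ := h
    rw [PMF.mem_support_iff] at h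
    have hi : i < s.L.length := by
      have hne : (range s.L.length).Nonempty := ⟨0, Finset.mem_range.2 (List.length_pos_iff.2 h1)⟩
      exact Finset.mem_range.1 ((PMF.mem_support_uniformOfFinset_iff hne i).1 hi)
    have hx : s.L.getD i 0 ∈ s.A := by
      apply hs.act
      rw [List.getD_eq_getElem _ _ hi]
      exact List.getElem_mem hi
    refine good_children _ k ⟨s.A, s.L.eraseIdx i, s.m⟩ ⟨hs.zero_mem, fun z hz => ?_, hs.size⟩ hx s' h
    exact hs.act z ((List.eraseIdx_sublist s.L i).subset hz)

theorem t_INV : S_INV := by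
  intro ν R T n s
  have key : ∀ κ : St → PMF St, (∀ s, Good s → ∀ s', κ s s' ≠ 0 → Good s') →
      ∀ n s, (law κ T n) s ≠ 0 → Good s := by
    intro κ hκ n
    induction n with
    | zero =>
      intro s h
      rw [law] at h
      have : s = ⟨{0}, [], T - 1⟩ := by
        by_contra hne
        exact h (by simp [PMF.pure_apply, hne])
      rw [this]
      refine ⟨by simp, by simp, ?_⟩
      intro z hz
      have : z = 0 := by simpa using hz
      rw [this]
      simp [nsq]
    | succ n ih =>
      intro s h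
      rw [law, ← PMF.mem_support_iff, PMF.mem_support_bind_iff] at h
      obtain ⟨s₀, h0, h⟩ := h
      exact hκ s₀ (ih s₀ ((PMF.mem_support_iff _ _).1 h0)) s ((PMF.mem_support_iff _ _).1 h)
  refine ⟨key (step ν) (fun s hs s' h => good_step ν hs s' h) n s,
    key (stepD ν R) (fun s hs s' h => ?_) n s⟩
  unfold stepD at h
  split_ifs at h
  · exact good_step ν hs s' h
  · have : s' = s := by
      by_contra hne
      exact h (by simp [PMF.pure_apply, hne])
    rw [this]; exact hs

end Pool.Agent.K1H74.BI
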